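import Mathlib

set_option autoImplicit false

namespace Pool.Agent.K3h54.QR

open Filter Topology

/-- the variable `q`, in the field `ℂ((q))` of formal Laurent series -/
noncomputable def q : LaurentSeries ℂ := HahnSeries.single 1 1

/-- the `q`-integer `[n]_q = (1 - q^n)/(1 - q)`, for an integer `n` -/
noncomputable def qInt (n : ℤ) : LaurentSeries ℂ := (1 - q ^ n) / (1 - q)

/-- the truncated negative continued fraction `[[c_0, ..., c_N]] = c_0 - 1/(c_1 - ... - 1/c_N)` -/
noncomputable def trunc : (ℕ → ℤ) → ℕ → ℝ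
  | c, 0 => c 0
  | c, N + 1 => c 0 - 1 / trunc (fun j => c (j + 1)) N

/-- the `q`-deformed truncation `[[c_0, ..., c_N]]_q`, expanded in `ℂ((q))`:
`[c_0]_q - q^(c_0-1)/([c_1]_q - q^(c_1-1)/(... - q^(c_(N-1)-1)/[c_N]_q))` -/
noncomputable def qTrunc : (ℕ → ℤ) → ℕ → LaurentSeries ℂ
  | c, 0 => qInt (c 0)
  | c, N + 1 => qInt (c 0) - q ^ (c 0 - 1) / qTrunc (fun j => c (j + 1)) N

/-- `IsQReal x F`: the Laurent series `F` is the `q`-deformed real number `[x]_q`.
For `x ≥ 1` with the negative continued fraction expansion `x = [[c_0, c_1, ...]]`, all `c_j ≥ 2`,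
it is the `q`-adic limit of the `q`-deformed truncations (every coefficient is eventually
constant, equal to that of `F`); for the other reals it is given by the rule
`[x - 1]_q = q⁻¹ ([x]_q - 1)`. -/
inductive IsQReal : ℝ → LaurentSeries ℂ → Prop
  | base (x : ℝ) (F : LaurentSeries ℂ) (c : ℕ → ℤ) (hx : 1 ≤ x) (hc : ∀ j, 2 ≤ c j)
      (hlim : Tendsto (trunc c) atTop (𝓝 x))
      (hF : ∀ m : ℤ, ∀ᶠ N in atTop, (qTrunc c N).coeff m = F.coeff m) : IsQReal x F
  | shift (x : ℝ) (F : LaurentSeries ℂ) (h : IsQReal x F) : IsQReal (x - 1) (q⁻¹ * (F - 1))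

/-- the radius of convergence of (the part with nonnegative exponents of) a Laurent series -/
noncomputable def radius (F : LaurentSeries ℂ) : ENNReal :=
  (FormalMultilinearSeries.ofScalars ℂ (fun n : ℕ => F.coeff (n : ℤ))).radius

end Pool.Agent.K3h54.QR
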