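import Pool.Agent.K3h54.QR.Defs

set_option autoImplicit false

namespace Pool.Agent.K3h54.QR

open Filter Topology

/-! ### the real continued fraction -/

lemma one_lt_trunc : ∀ (N : ℕ) (c : ℕ → ℤ), (∀ j, 2 ≤ c j) → 1 < trunc c N
  | 0, c, hc => by
      have : (2 : ℝ) ≤ c 0 := by exact_mod_cast hc 0
      simp only [trunc]
      linarith
  | N + 1, c, hc => by
      have h0 : (2 : ℝ) ≤ c 0 := by exact_mod_cast hc 0
      have h1 := one_lt_trunc N (fun j => c (j + 1)) fun j => hc _
      simp only [trunc]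
      have : 1 / trunc (fun j => c (j + 1)) N < 1 := by
        rw [div_lt_one (by linarith)]
        exact h1
      linarith

lemma trunc_lt_digit (N : ℕ) (c : ℕ → ℤ) (hc : ∀ j, 2 ≤ c j) : trunc c N ≤ c 0 := by
  cases N with
  | zero => simp [trunc]
  | succ N =>
      have h1 := one_lt_trunc N (fun j => c (j + 1)) fun j => hc _
      simp only [trunc]
      have : 0 < 1 / trunc (fun j => c (j + 1)) N := by positivity
      linarith

/-- if the truncations converge to `x`, then `c_0 = ⌊x⌋ + 1` and the truncations of the tail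
converge to `1 / (c_0 - x)` -/
lemma tail_tendsto {c : ℕ → ℤ} (hc : ∀ j, 2 ≤ c j) {x : ℝ} (h : Tendsto (trunc c) atTop (𝓝 x)) :
    c 0 = ⌊x⌋ + 1 ∧ Tendsto (trunc fun j => c (j + 1)) atTop (𝓝 (1 / (c 0 - x))) := by
  set t := trunc fun j => c (j + 1) with ht
  have h1 : ∀ N, 1 < t N := fun N => one_lt_trunc N _ fun j => hc _
  have h2 : ∀ N, t N ≤ c 1 := fun N => trunc_lt_digit N _ fun j => hc _
  have h3 : Tendsto (fun N => trunc c (N + 1)) atTop (𝓝 x) := (tendsto_add_atTop_iff_nat 1).2 h
  have h4 : ∀ N, 1 / t N = c 0 - trunc c (N + 1) := by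
    intro N
    simp only [trunc]
    ring
  have h5 : Tendsto (fun N => 1 / t N) atTop (𝓝 (c 0 - x)) := by
    simp only [h4]
    exact tendsto_const_nhds.sub h3
  have hc1 : (2 : ℝ) ≤ c 1 := by exact_mod_cast hc 1
  have h6 : (1 : ℝ) / c 1 ≤ c 0 - x := by
    refine ge_of_tendsto' h5 fun N => ?_
    exact one_div_le_one_div_of_le (by linarith [h1 N]) (h2 N)
  have h7 : (c 0 : ℝ) - x ≤ 1 := by
    refine le_of_tendsto' h5 fun N => ?_
    rw [div_le_one (by linarith [h1 N])]
    exact (h1 N).le
  have h8 : (0 : ℝ) < 1 / c 1 := by positivity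
  constructor
  · have : ⌊x⌋ = c 0 - 1 := by
      rw [Int.floor_eq_iff]
      push_cast
      constructor <;> linarith
    omega
  · have h9 := h5.inv₀ (by linarith)
    have e : (fun N => (1 / t N)⁻¹) = t := by
      funext N
      rw [one_div, inv_inv]
    rw [e] at h9
    rwa [one_div]

lemma digits_unique : ∀ (j : ℕ) (c d : ℕ → ℤ), (∀ j, 2 ≤ c j) → (∀ j, 2 ≤ d j) → ∀ x : ℝ,
    Tendsto (trunc c) atTop (𝓝 x) → Tendsto (trunc d) atTop (𝓝 x) → c j = d j
  | 0, c, d, hc, hd, x, h, h' => by
      rw [(tail_tendsto hc h).1, (tail_tendsto hd h').1]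
  | j + 1, c, d, hc, hd, x, h, h' => by
      have e : c 0 = d 0 := by rw [(tail_tendsto hc h).1, (tail_tendsto hd h').1]
      have h1 := (tail_tendsto hc h).2
      have h2 := (tail_tendsto hd h').2
      rw [← e] at h2
      exact digits_unique j (fun j => c (j + 1)) (fun j => d (j + 1)) (fun _ => hc _)
        (fun _ => hd _) _ h1 h2

/-- truncations decrease -/
lemma trunc_anti : ∀ (N : ℕ) (c : ℕ → ℤ), (∀ j, 2 ≤ c j) → trunc c (N + 1) ≤ trunc c N
  | 0, c, hc => by
      have h1 := one_lt_trunc 0 (fun j => c (j + 1)) fun j => hc _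
      have : 0 < 1 / trunc (fun j => c (j + 1)) 0 := by positivity
      have e : trunc c (0 + 1) = c 0 - 1 / trunc (fun j => c (j + 1)) 0 := rfl
      have e' : trunc c 0 = c 0 := rfl
      rw [e, e']
      linarith
  | N + 1, c, hc => by
      have h1 := one_lt_trunc (N + 1) (fun j => c (j + 1)) fun j => hc _
      have h3 := trunc_anti N (fun j => c (j + 1)) fun j => hc _
      have e : trunc c (N + 1 + 1) = c 0 - 1 / trunc (fun j => c (j + 1)) (N + 1) := rfl
      have e' : trunc c (N + 1) = c 0 - 1 / trunc (fun j => c (j + 1)) N := rfl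
      rw [e, e']
      have := one_div_le_one_div_of_le (by linarith) h3
      linarith

lemma trunc_converges (c : ℕ → ℤ) (hc : ∀ j, 2 ≤ c j) :
    ∃ x : ℝ, 1 ≤ x ∧ Tendsto (trunc c) atTop (𝓝 x) := by
  have hanti : Antitone (trunc c) := antitone_nat_of_succ_le fun N => trunc_anti N c hc
  have hb : BddBelow (Set.range (trunc c)) := ⟨1, by
    rintro _ ⟨N, rfl⟩
    exact (one_lt_trunc N c hc).le⟩
  refine ⟨_, ?_, tendsto_atTop_ciInf hanti hb⟩
  exact le_ciInf fun N => (one_lt_trunc N c hc).le

/-- the complete quotients of the negative continued fraction of `x` -/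
noncomputable def quot (x : ℝ) : ℕ → ℝ
  | 0 => x
  | j + 1 => 1 / (⌊quot x j⌋ + 1 - quot x j)

lemma one_le_quot {x : ℝ} (hx : 1 ≤ x) : ∀ j, 1 ≤ quot x j
  | 0 => hx
  | j + 1 => by
      have h1 := Int.lt_floor_add_one (quot x j)
      have h2 := Int.floor_le (quot x j)
      simp only [quot]
      rw [le_div_iff₀ (by linarith)]
      linarith

lemma quot_shift (x : ℝ) : ∀ j, quot x (j + 1) = quot (quot x 1) j
  | 0 => by simp [quot]
  | j + 1 => by
      have h := quot_shift x j
      have e : quot x (j + 1 + 1) = 1 / (⌊quot x (j + 1)⌋ + 1 - quot x (j + 1)) := rfl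
      rw [e, h]
      rfl

/-- the digits of the negative continued fraction of `x` -/
noncomputable def dig (x : ℝ) (j : ℕ) : ℤ := ⌊quot x j⌋ + 1

lemma two_le_dig {x : ℝ} (hx : 1 ≤ x) (j : ℕ) : 2 ≤ dig x j := by
  have h : (1 : ℤ) ≤ ⌊quot x j⌋ := by
    rw [Int.le_floor]
    exact_mod_cast one_le_quot hx j
  unfold dig
  omega

/-- the truncations are at least `x` -/
lemma le_trunc_dig : ∀ (N : ℕ) (x : ℝ), 1 ≤ x → x ≤ trunc (dig x) N
  | 0, x, _ => by
      have h1 := Int.lt_floor_add_one x
      have e : trunc (dig x) 0 = ((⌊x⌋ + 1 : ℤ) : ℝ) := rfl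
      rw [e]
      push_cast
      exact h1.le
  | N + 1, x, hx => by
      have hy := one_le_quot hx 1
      have h := le_trunc_dig N (quot x 1) hy
      have e : (fun j => dig x (j + 1)) = dig (quot x 1) := by
        funext j
        unfold dig
        rw [quot_shift]
      have e' : trunc (dig x) (N + 1) =
          ((⌊x⌋ + 1 : ℤ) : ℝ) - 1 / trunc (fun j => dig x (j + 1)) N := rfl
      rw [e', e]
      have h2 := one_div_le_one_div_of_le (by linarith) h
      have h3 : 1 / quot x 1 = ⌊x⌋ + 1 - x := by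
        simp only [quot]
        rw [one_div_one_div]
      rw [h3] at h2
      push_cast
      linarith

/-- if `x < y` share the first digit, the expansions... : the limit of the truncations of the
digits of `x` is `x` -/
lemma trunc_dig_tendsto {x : ℝ} (hx : 1 ≤ x) : Tendsto (trunc (dig x)) atTop (𝓝 x) := by
  -- the limits `y j` of the truncations of the `j`-th tails
  have key : ∀ j : ℕ, ∃ y : ℝ, 1 ≤ y ∧ Tendsto (trunc (dig (quot x j))) atTop (𝓝 y) := fun j =>
    trunc_converges _ fun i => two_le_dig (one_le_quot hx j) i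
  choose y hy1 hy using key
  have hle : ∀ j, quot x j ≤ y j := fun j =>
    ge_of_tendsto' (hy j) fun N => le_trunc_dig N _ (one_le_quot hx j)
  have hshift : ∀ j, (fun i => dig (quot x j) (i + 1)) = dig (quot x (j + 1)) := by
    intro j
    funext i
    unfold dig
    rw [quot_shift]
    rfl
  have hrec : ∀ j, y (j + 1) = 1 / ((⌊quot x j⌋ + 1 : ℤ) - y j) ∧ (y j < ⌊quot x j⌋ + 1) := by
    intro j
    have h := tail_tendsto (c := dig (quot x j)) (fun i => two_le_dig (one_le_quot hx j) i) (hy j)
    rw [hshift j] at h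
    have e := tendsto_nhds_unique (hy (j + 1)) h.2
    have e0 : dig (quot x j) 0 = ⌊quot x j⌋ + 1 := rfl
    rw [e0] at e h
    refine ⟨e, ?_⟩
    have := h.1
    have h3 : ⌊quot x j⌋ = ⌊y j⌋ := by omega
    rw [h3]
    exact Int.lt_floor_add_one _
  -- the difference `y j - quot x j` does not decrease
  have hdiff : ∀ j, (y j - quot x j) * quot x (j + 1) * y (j + 1) = y (j + 1) - quot x (j + 1) := by
    intro j
    obtain ⟨h1, h2⟩ := hrec j
    have h3 : quot x (j + 1) = 1 / (⌊quot x j⌋ + 1 - quot x j) := rfl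
    have h4 := Int.lt_floor_add_one (quot x j)
    rw [h1, h3]
    push_cast
    have h5 : (⌊quot x j⌋ : ℝ) + 1 - quot x j ≠ 0 := by linarith
    have h6 : (⌊quot x j⌋ : ℝ) + 1 - y j ≠ 0 := by linarith
    field_simp
    ring
  by_contra hne
  have hlt : x < y 0 := by
    rcases (hle 0).lt_or_eq with h | h
    · exact h
    · exfalso
      apply hne
      have := hy 0
      rw [← h] at this
      exact this
  -- `D j = y j - quot x j` is nondecreasing and `< 1`, and grows at least like a fixed amount
  have hmono : ∀ j, y 0 - x ≤ y j - quot x j := by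
    intro j
    induction j with
    | zero => exact le_rfl
    | succ j ih =>
        have h1 := one_le_quot hx (j + 1)
        have h2 := hy1 (j + 1)
        have h3 : 0 ≤ y j - quot x j := by linarith
        rw [← hdiff j]
        have h4 : 1 ≤ quot x (j + 1) * y (j + 1) := by nlinarith
        nlinarith
  have hgrow : ∀ j : ℕ, (y 0 - x) * (1 + (j : ℝ) * (y 0 - x)) ≤ y j - quot x j := by
    intro j
    induction j with
    | zero => simp [quot]
    | succ j ih =>
        have h1 := one_le_quot hx (j + 1)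
        have h3 : 0 < y j - quot x j := lt_of_lt_of_le (by linarith) (hmono j)
        have h5 : 1 + (y 0 - x) ≤ y (j + 1) := by linarith [hmono (j + 1)]
        have h4 : 1 + (y 0 - x) ≤ quot x (j + 1) * y (j + 1) := by nlinarith
        have h6 : (y j - quot x j) * (1 + (y 0 - x)) ≤ y (j + 1) - quot x (j + 1) := by
          rw [← hdiff j, mul_assoc]
          exact mul_le_mul_of_nonneg_left h4 h3.le
        have h7 := hmono j
        push_cast
        nlinarith
  obtain ⟨j, hj⟩ := exists_nat_gt (1 / (y 0 - x) ^ 2)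
  have hpos : 0 < y 0 - x := by linarith
  have h1 := hgrow j
  have h2 : y j - quot x j < 1 := by
    have := (hrec j).2
    have h3 := Int.floor_le (quot x j)
    linarith
  rw [div_lt_iff₀ (by positivity)] at hj
  nlinarith

end Pool.Agent.K3h54.QR
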