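import Mathlib

set_option autoImplicit false

namespace Pool.Agent.K3h54.QR

open Finset PowerSeries

/-- weighted `ℓ¹` norm of the part of degree `< n` of a power series -/
noncomputable def Nn (n : ℕ) (r : ℝ) (F : PowerSeries ℂ) : ℝ :=
  ∑ k ∈ range n, ‖coeff k F‖ * r ^ k

lemma Nn_nonneg {n : ℕ} {r : ℝ} (hr : 0 ≤ r) (F : PowerSeries ℂ) : 0 ≤ Nn n r F :=
  Finset.sum_nonneg fun k _ => by positivity

lemma Nn_add {n : ℕ} {r : ℝ} (hr : 0 ≤ r) (F G : PowerSeries ℂ) :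
    Nn n r (F + G) ≤ Nn n r F + Nn n r G := by
  unfold Nn
  rw [← Finset.sum_add_distrib]
  refine Finset.sum_le_sum fun k _ => ?_
  rw [map_add, ← add_mul]
  exact mul_le_mul_of_nonneg_right (norm_add_le _ _) (by positivity)

lemma Nn_neg {n : ℕ} {r : ℝ} (F : PowerSeries ℂ) : Nn n r (-F) = Nn n r F := by
  unfold Nn
  refine Finset.sum_congr rfl fun k _ => ?_
  rw [map_neg, norm_neg]

lemma Nn_sub {n : ℕ} {r : ℝ} (hr : 0 ≤ r) (F G : PowerSeries ℂ) :
    Nn n r (F - G) ≤ Nn n r F + Nn n r G := by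
  rw [sub_eq_add_neg]
  refine (Nn_add hr _ _).trans ?_
  rw [Nn_neg]

lemma Nn_one {n : ℕ} {r : ℝ} : Nn n r 1 ≤ 1 := by
  unfold Nn
  rcases n with _ | n
  · simp
  · rw [Finset.sum_range_succ']
    have : ∑ k ∈ range n, ‖coeff (k + 1) (1 : PowerSeries ℂ)‖ * r ^ (k + 1) = 0 := by
      refine Finset.sum_eq_zero fun k _ => ?_
      rw [coeff_one]
      simp
    rw [this]
    simp

lemma Nn_mul {n : ℕ} {r : ℝ} (hr : 0 ≤ r) (F G : PowerSeries ℂ) :
    Nn n r (F * G) ≤ Nn n r F * Nn n r G := by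
  have key : ∀ k ∈ range n, ‖coeff k (F * G)‖ * r ^ k ≤
      ∑ p ∈ antidiagonal k, ‖coeff p.1 F‖ * r ^ p.1 * (‖coeff p.2 G‖ * r ^ p.2) := by
    intro k _
    rw [coeff_mul]
    calc ‖∑ p ∈ antidiagonal k, coeff p.1 F * coeff p.2 G‖ * r ^ k
        ≤ (∑ p ∈ antidiagonal k, ‖coeff p.1 F * coeff p.2 G‖) * r ^ k :=
          mul_le_mul_of_nonneg_right (norm_sum_le _ _) (by positivity)
      _ = ∑ p ∈ antidiagonal k, ‖coeff p.1 F‖ * r ^ p.1 * (‖coeff p.2 G‖ * r ^ p.2) := by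
          rw [Finset.sum_mul]
          refine Finset.sum_congr rfl fun p hp => ?_
          rw [← HasAntidiagonal.mem_antidiagonal.1 hp, norm_mul, pow_add]
          ring
  refine (Finset.sum_le_sum key).trans ?_
  rw [← Finset.sum_biUnion]
  · unfold Nn
    rw [Finset.sum_mul_sum, ← Finset.sum_product']
    refine Finset.sum_le_sum_of_subset_of_nonneg ?_ fun p _ _ => by positivity
    intro p hp
    rw [mem_biUnion] at hp
    obtain ⟨k, hk, hp⟩ := hp
    rw [HasAntidiagonal.mem_antidiagonal] at hp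
    rw [mem_range] at hk
    rw [mem_product, mem_range, mem_range]
    omega
  · intro a _ b _ hab
    rw [Function.onFun, Finset.disjoint_left]
    intro p hp hp'
    rw [HasAntidiagonal.mem_antidiagonal] at hp hp'
    omega

lemma Nn_X_mul {n : ℕ} {r : ℝ} (hr : 0 ≤ r) (F : PowerSeries ℂ) :
    Nn n r (X * F) ≤ r * Nn n r F := by
  have hX : Nn n r X ≤ r := by
    unfold Nn
    calc ∑ k ∈ range n, ‖coeff k (X : PowerSeries ℂ)‖ * r ^ k
        ≤ ∑ k ∈ range (n + 2), ‖coeff k (X : PowerSeries ℂ)‖ * r ^ k := by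
          refine Finset.sum_le_sum_of_subset_of_nonneg ?_ fun p _ _ => by positivity
          exact Finset.range_mono (by omega)
      _ = r := by
          rw [Finset.sum_eq_single 1]
          · simp
          · intro b _ hb
            rw [coeff_X, if_neg hb]
            simp
          · intro h
            exact absurd (mem_range.2 (by omega)) h
  exact (Nn_mul hr _ _).trans (mul_le_mul_of_nonneg_right hX (Nn_nonneg hr _))

/-- if `w = 1 + e` with `‖e‖ ≤ ρ < 1` then `‖1 - w⁻¹‖ ≤ ρ / (1 - ρ)` -/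
lemma Nn_inv {n : ℕ} {r ρ : ℝ} (hr : 0 ≤ r) (hρ : ρ < 1) (w : PowerSeries ℂ)
    (hw : constantCoeff w = 1) (h : Nn n r (w - 1) ≤ ρ) :
    Nn n r (1 - w⁻¹) ≤ ρ / (1 - ρ) := by
  have hw' : constantCoeff w ≠ 0 := by rw [hw]; exact one_ne_zero
  have h1 : w * w⁻¹ = 1 := PowerSeries.mul_inv_cancel w hw'
  have e : 1 - w⁻¹ = (w - 1) - (w - 1) * (1 - w⁻¹) := by
    have : (w - 1) * (1 - w⁻¹) = w - 1 - (w * w⁻¹) + w⁻¹ := by ring
    rw [this, h1]
    ring
  have h2 : Nn n r (1 - w⁻¹) ≤ ρ + ρ * Nn n r (1 - w⁻¹) := by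
    calc Nn n r (1 - w⁻¹) = Nn n r ((w - 1) - (w - 1) * (1 - w⁻¹)) := by rw [← e]
      _ ≤ Nn n r (w - 1) + Nn n r ((w - 1) * (1 - w⁻¹)) := Nn_sub hr _ _
      _ ≤ ρ + Nn n r (w - 1) * Nn n r (1 - w⁻¹) := add_le_add h (Nn_mul hr _ _)
      _ ≤ ρ + ρ * Nn n r (1 - w⁻¹) := by
          gcongr
          exact Nn_nonneg hr _
  rw [le_div_iff₀ (by linarith)]
  linarith

end Pool.Agent.K3h54.QR
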