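import Pool.Agent.K3h54.QR.Defs
import Pool.Agent.K3h54.QR.Norm

set_option autoImplicit false

namespace Pool.Agent.K3h54.QR

open Filter Topology Finset
open PowerSeries (X coeff constantCoeff)

/-- the embedding of power series in Laurent series -/
noncomputable abbrev φ : PowerSeries ℂ →+* LaurentSeries ℂ := HahnSeries.ofPowerSeries ℤ ℂ

lemma φ_X : φ X = q := HahnSeries.ofPowerSeries_X

lemma φ_coeff (F : PowerSeries ℂ) (n : ℕ) : (φ F).coeff (n : ℤ) = coeff n F :=
  LaurentSeries.coeff_coe_powerSeries F n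

lemma φ_inv {F : PowerSeries ℂ} (h : constantCoeff F ≠ 0) : φ F⁻¹ = (φ F)⁻¹ := by
  have h1 : φ F * φ F⁻¹ = 1 := by rw [← map_mul, PowerSeries.mul_inv_cancel F h, map_one]
  exact eq_inv_of_mul_eq_one_right h1

lemma q_ne_zero : q ≠ 0 := by
  unfold q
  simp

lemma one_sub_q_ne_zero : (1 : LaurentSeries ℂ) - q ≠ 0 := by
  intro h
  have h1 : φ (1 - X) = φ 0 := by rw [map_sub, map_one, φ_X, h, map_zero]
  have h2 := HahnSeries.ofPowerSeries_injective h1
  have h3 := congrArg (coeff 1) h2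
  simp [PowerSeries.coeff_one] at h3

/-- `z ↦ 1 + X z` applied `k` times to `v` -/
noncomputable def up (v : PowerSeries ℂ) : ℕ → PowerSeries ℂ
  | 0 => v
  | k + 1 => 1 + X * up v k

lemma φ_up (v : PowerSeries ℂ) : ∀ k : ℕ, φ (up v k) = qInt k + q ^ (k : ℤ) * φ v
  | 0 => by simp [up, qInt]
  | k + 1 => by
      have h := φ_up v k
      simp only [up]
      rw [map_add, map_mul, map_one, φ_X, h]
      have e : q ^ ((k + 1 : ℕ) : ℤ) = q * q ^ (k : ℤ) := by
        push_cast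
        rw [zpow_add₀ q_ne_zero, zpow_one, mul_comm]
      rw [e]
      unfold qInt
      rw [e]
      have := one_sub_q_ne_zero
      field_simp
      ring

lemma constantCoeff_up (v : PowerSeries ℂ) (k : ℕ) : constantCoeff (up v (k + 1)) = 1 := by
  simp [up]

/-- the truncations, as power series -/
noncomputable def P : (ℕ → ℤ) → ℕ → PowerSeries ℂ
  | c, 0 => up 1 (c 0 - 1).toNat
  | c, N + 1 => up (1 - (P (fun j => c (j + 1)) N)⁻¹) (c 0 - 1).toNat

lemma toNat_eq {a : ℤ} (h : 2 ≤ a) : ∃ k : ℕ, (a - 1).toNat = k + 1 ∧ ((k + 1 : ℕ) : ℤ) = a - 1 :=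
  ⟨(a - 2).toNat, by omega, by omega⟩

lemma constantCoeff_P (c : ℕ → ℤ) (hc : ∀ j, 2 ≤ c j) (N : ℕ) : constantCoeff (P c N) = 1 := by
  obtain ⟨k, hk, _⟩ := toNat_eq (hc 0)
  cases N with
  | zero => simp only [P, hk]; exact constantCoeff_up _ _
  | succ N => simp only [P, hk]; exact constantCoeff_up _ _

lemma qTrunc_eq : ∀ (N : ℕ) (c : ℕ → ℤ), (∀ j, 2 ≤ c j) → qTrunc c N = φ (P c N)
  | 0, c, hc => by
      obtain ⟨k, hk, hk'⟩ := toNat_eq (hc 0)
      simp only [P, hk, qTrunc]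
      rw [φ_up, hk', map_one, mul_one]
      unfold qInt
      have e : q ^ (c 0) = q * q ^ (c 0 - 1) := by
        rw [zpow_sub_one₀ q_ne_zero, mul_comm q, mul_assoc, inv_mul_cancel₀ q_ne_zero, mul_one]
      rw [e]
      have := one_sub_q_ne_zero
      field_simp
      ring
  | N + 1, c, hc => by
      obtain ⟨k, hk, hk'⟩ := toNat_eq (hc 0)
      have h := qTrunc_eq N (fun j => c (j + 1)) fun j => hc _
      have h1 : constantCoeff (P (fun j => c (j + 1)) N) ≠ 0 := by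
        rw [constantCoeff_P _ (fun j => hc _)]
        exact one_ne_zero
      simp only [P, hk, qTrunc]
      rw [φ_up, hk', h, map_sub, map_one, φ_inv h1]
      unfold qInt
      have e : q ^ (c 0) = q * q ^ (c 0 - 1) := by
        rw [zpow_sub_one₀ q_ne_zero, mul_comm q, mul_assoc, inv_mul_cancel₀ q_ne_zero, mul_one]
      rw [e]
      have := one_sub_q_ne_zero
      field_simp
      ring

/-! ### the bound -/

lemma Nn_up {n : ℕ} {r B : ℝ} (hr : 0 ≤ r) (hB : 1 + r * B ≤ B) {v : PowerSeries ℂ}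
    (hv : Nn n r v ≤ B) : ∀ k, Nn n r (up v k) ≤ B ∧ Nn n r (up v (k + 1) - 1) ≤ r * B
  | 0 => by
      refine ⟨hv, ?_⟩
      simp only [up, add_sub_cancel_left]
      exact (Nn_X_mul hr _).trans (mul_le_mul_of_nonneg_left hv hr)
  | k + 1 => by
      have h := Nn_up hr hB hv k
      have h1 : Nn n r (up v (k + 1)) ≤ B := by
        simp only [up]
        refine (Nn_add hr _ _).trans ?_
        have h2 := (Nn_X_mul hr (up v k) (n := n)).trans (mul_le_mul_of_nonneg_left h.1 hr)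
        have h3 := Nn_one (n := n) (r := r)
        linarith
      refine ⟨h1, ?_⟩
      have e : up v (k + 1 + 1) - 1 = X * up v (k + 1) := by simp [up]
      rw [e]
      exact (Nn_X_mul hr _).trans (mul_le_mul_of_nonneg_left h1 hr)

/-- the key bound: if `ρ > 0`, `ρ + ρ² ≤ 1` and `r = ρ²`, then `∑_{1 ≤ k < n} |a_k| r^k ≤ ρ` for
every truncation -/
lemma Nn_P {n : ℕ} {ρ : ℝ} (hρ : 0 < ρ) (h : ρ + ρ ^ 2 ≤ 1) :
    ∀ (N : ℕ) (c : ℕ → ℤ), (∀ j, 2 ≤ c j) → Nn n (ρ ^ 2) (P c N - 1) ≤ ρ := by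
  have hB : 1 + ρ ^ 2 * (1 / ρ) ≤ 1 / ρ := by
    rw [le_div_iff₀ hρ]
    field_simp
    nlinarith
  have hB1 : (1 : ℝ) ≤ 1 / ρ := by
    rw [le_div_iff₀ hρ]
    nlinarith
  have hr : ρ ^ 2 * (1 / ρ) = ρ := by field_simp
  intro N
  induction N with
  | zero =>
      intro c hc
      obtain ⟨k, hk, _⟩ := toNat_eq (hc 0)
      simp only [P, hk]
      have := (Nn_up (n := n) (by positivity) hB (Nn_one.trans hB1) k).2
      rwa [hr] at this
  | succ N ih =>
      intro c hc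
      obtain ⟨k, hk, _⟩ := toNat_eq (hc 0)
      simp only [P, hk]
      have h0 := ih (fun j => c (j + 1)) fun j => hc _
      have hlt : ρ < 1 := by nlinarith
      have h1 : Nn n (ρ ^ 2) (1 - (P (fun j => c (j + 1)) N)⁻¹) ≤ ρ / (1 - ρ) :=
        Nn_inv (by positivity) hlt _ (constantCoeff_P _ (fun j => hc _) N) h0
      have h2 : ρ / (1 - ρ) ≤ 1 / ρ := by
        rw [div_le_div_iff₀ (by linarith) hρ]
        nlinarith
      have := (Nn_up (n := n) (by positivity) hB (h1.trans h2) k).2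
      rwa [hr] at this

/-! ### convergence -/

lemma X_dvd_up {m : ℕ} {v w : PowerSeries ℂ} (h : X ^ m ∣ v - w) :
    ∀ k, X ^ (m + k) ∣ up v k - up w k
  | 0 => h
  | k + 1 => by
      have h1 := X_dvd_up h k
      have e : up v (k + 1) - up w (k + 1) = X * (up v k - up w k) := by
        simp only [up]
        ring
      rw [e, ← add_assoc, pow_succ']
      exact mul_dvd_mul_left _ h1

lemma X_dvd_P : ∀ (N : ℕ) (c : ℕ → ℤ), (∀ j, 2 ≤ c j) →
    (X : PowerSeries ℂ) ^ (N + 1) ∣ P c (N + 1) - P c N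
  | 0, c, hc => by
      obtain ⟨k, hk, _⟩ := toNat_eq (hc 0)
      simp only [P, hk]
      have h : (X : PowerSeries ℂ) ^ 0 ∣
          (1 - (up 1 (c (0 + 1) - 1).toNat)⁻¹) - 1 := by simp
      have := X_dvd_up h (k + 1)
      exact (pow_dvd_pow _ (by omega)).trans this
  | N + 1, c, hc => by
      obtain ⟨k, hk, _⟩ := toNat_eq (hc 0)
      have h := X_dvd_P N (fun j => c (j + 1)) fun j => hc _
      have e1 : P c (N + 1 + 1) = up (1 - (P (fun j => c (j + 1)) (N + 1))⁻¹) (c 0 - 1).toNat := rfl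
      have e2 : P c (N + 1) = up (1 - (P (fun j => c (j + 1)) N)⁻¹) (c 0 - 1).toNat := rfl
      rw [e1, e2, hk]
      set A := P (fun j => c (j + 1)) (N + 1) with hA
      set B := P (fun j => c (j + 1)) N with hB
      have hA1 : constantCoeff A ≠ 0 := by
        rw [hA, constantCoeff_P _ (fun j => hc _)]
        exact one_ne_zero
      have hB1 : constantCoeff B ≠ 0 := by
        rw [hB, constantCoeff_P _ (fun j => hc _)]
        exact one_ne_zero
      have h3 : (1 - A⁻¹) - (1 - B⁻¹) = (A - B) * (A⁻¹ * B⁻¹) := by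
        have hA2 := PowerSeries.mul_inv_cancel A hA1
        have hB2 := PowerSeries.mul_inv_cancel B hB1
        calc (1 - A⁻¹) - (1 - B⁻¹) = B⁻¹ * 1 - A⁻¹ * 1 := by ring
          _ = B⁻¹ * (A * A⁻¹) - A⁻¹ * (B * B⁻¹) := by rw [hA2, hB2]
          _ = (A - B) * (A⁻¹ * B⁻¹) := by ring
      have h4 : (X : PowerSeries ℂ) ^ (N + 1) ∣ (1 - A⁻¹) - (1 - B⁻¹) := by
        rw [h3]
        exact Dvd.dvd.mul_right h _
      exact (pow_dvd_pow _ (by omega)).trans (X_dvd_up h4 (k + 1))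

/-- the `q`-adic limit of the truncations -/
noncomputable def L (c : ℕ → ℤ) : PowerSeries ℂ := PowerSeries.mk fun m => coeff m (P c m)

lemma coeff_P_eq {c : ℕ → ℤ} (hc : ∀ j, 2 ≤ c j) {m N : ℕ} (h : m ≤ N) :
    coeff m (P c N) = coeff m (L c) := by
  induction N, h using Nat.le_induction with
  | base => simp [L]
  | succ N hN ih =>
      rw [← ih]
      have h1 := PowerSeries.X_pow_dvd_iff.1 (X_dvd_P N c hc) m (by omega)
      rw [map_sub, sub_eq_zero] at h1
      exact h1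

lemma Nn_L {n : ℕ} {ρ : ℝ} (hρ : 0 < ρ) (h : ρ + ρ ^ 2 ≤ 1) {c : ℕ → ℤ} (hc : ∀ j, 2 ≤ c j) :
    Nn n (ρ ^ 2) (L c - 1) ≤ ρ := by
  have e : Nn n (ρ ^ 2) (L c - 1) = Nn n (ρ ^ 2) (P c n - 1) := by
    unfold Nn
    refine Finset.sum_congr rfl fun k hk => ?_
    rw [mem_range] at hk
    rw [map_sub, map_sub, coeff_P_eq hc hk.le]
  rw [e]
  exact Nn_P hρ h n c hc

end Pool.Agent.K3h54.QR
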