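import Pool.Agent.K3h54.QR.Digits
import Pool.Agent.K3h54.QR.Series

set_option autoImplicit false

namespace Pool.Agent.K3h54.QR

open Filter Topology Finset
open PowerSeries (X coeff constantCoeff)

lemma φ_coeff_neg (F : PowerSeries ℂ) {m : ℤ} (hm : m < 0) : (φ F).coeff m = 0 := by
  have := PowerSeries.coeff_coe F m
  rw [this, if_pos hm]

lemma eq_φ_L {c : ℕ → ℤ} (hc : ∀ j, 2 ≤ c j) {F : LaurentSeries ℂ}
    (hF : ∀ m : ℤ, ∀ᶠ N in atTop, (qTrunc c N).coeff m = F.coeff m) : F = φ (L c) := by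
  ext m
  obtain ⟨N0, hN0⟩ := eventually_atTop.1 (hF m)
  rcases lt_or_ge m 0 with hm | hm
  · rw [φ_coeff_neg _ hm, ← hN0 N0 le_rfl, qTrunc_eq N0 c hc, φ_coeff_neg _ hm]
  · obtain ⟨n, rfl⟩ := Int.eq_ofNat_of_zero_le hm
    have h := hN0 (max N0 n) (le_max_left _ _)
    rw [← h, qTrunc_eq _ c hc, φ_coeff, φ_coeff, coeff_P_eq hc (le_max_right _ _)]

lemma φ_L_lim {c : ℕ → ℤ} (hc : ∀ j, 2 ≤ c j) (m : ℤ) :
    ∀ᶠ N in atTop, (qTrunc c N).coeff m = (φ (L c)).coeff m := by
  rcases lt_or_ge m 0 with hm | hm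
  · refine Eventually.of_forall fun N => ?_
    rw [qTrunc_eq _ c hc, φ_coeff_neg _ hm, φ_coeff_neg _ hm]
  · obtain ⟨n, rfl⟩ := Int.eq_ofNat_of_zero_le hm
    filter_upwards [eventually_ge_atTop n] with N hN
    rw [qTrunc_eq _ c hc, φ_coeff, φ_coeff, coeff_P_eq hc hN]

/-- the canonical `[y]_q` for `y ≥ 1` -/
noncomputable def can (y : ℝ) : LaurentSeries ℂ := φ (L (dig y))

/-- the shift `F ↦ q⁻¹ (F - 1)` -/
noncomputable def sh (F : LaurentSeries ℂ) : LaurentSeries ℂ := q⁻¹ * (F - 1)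

lemma sh_one_add (F : LaurentSeries ℂ) : sh (1 + q * F) = F := by
  unfold sh
  rw [add_sub_cancel_left, inv_mul_cancel_left₀ q_ne_zero]

lemma quot_add_one (y : ℝ) : ∀ j, quot (y + 1) (j + 1) = quot y (j + 1)
  | 0 => by
      simp only [quot]
      rw [Int.floor_add_one]
      push_cast
      congr 1
      ring
  | j + 1 => by
      have h := quot_add_one y j
      have e1 : quot (y + 1) (j + 1 + 1) =
        1 / (⌊quot (y + 1) (j + 1)⌋ + 1 - quot (y + 1) (j + 1)) := rfl
      have e2 : quot y (j + 1 + 1) = 1 / (⌊quot y (j + 1)⌋ + 1 - quot y (j + 1)) := rfl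
      rw [e1, e2, h]

lemma P_succ {c d : ℕ → ℤ} (hc : ∀ j, 2 ≤ c j) (h0 : d 0 = c 0 + 1)
    (h : ∀ j, d (j + 1) = c (j + 1)) (N : ℕ) : P d N = 1 + X * P c N := by
  obtain ⟨k, hk, hk'⟩ := toNat_eq (hc 0)
  have e : (d 0 - 1).toNat = (c 0 - 1).toNat + 1 := by omega
  cases N with
  | zero =>
      simp only [P, e]
      rfl
  | succ N =>
      have e' : (fun j => d (j + 1)) = fun j => c (j + 1) := funext h
      simp only [P, e, e']
      rfl

lemma L_succ {c d : ℕ → ℤ} (hc : ∀ j, 2 ≤ c j) (h0 : d 0 = c 0 + 1)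
    (h : ∀ j, d (j + 1) = c (j + 1)) : L d = 1 + X * L c := by
  ext m
  have e : coeff m (L d) = coeff m (1 + X * P c m) := by
    rw [← P_succ hc h0 h m]
    simp [L]
  rw [e, map_add, map_add]
  congr 1
  cases m with
  | zero => simp
  | succ m => rw [PowerSeries.coeff_succ_X_mul, PowerSeries.coeff_succ_X_mul,
      coeff_P_eq hc (Nat.le_succ m)]

lemma can_add_one {y : ℝ} (hy : 1 ≤ y) : can (y + 1) = 1 + q * can y := by
  unfold can
  rw [L_succ (c := dig y) (d := dig (y + 1)) (fun j => two_le_dig hy j), map_add, map_mul, φ_X,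
    map_one]
  · unfold dig
    simp [quot]
  · intro j
    unfold dig
    rw [quot_add_one]

lemma sh_can {y : ℝ} (hy : 1 ≤ y) : sh (can (y + 1)) = can y := by
  rw [can_add_one hy, sh_one_add]

lemma sh_iter_can {y : ℝ} (hy : 1 ≤ y) : ∀ k : ℕ, sh^[k] (can (y + k)) = can y
  | 0 => by simp
  | k + 1 => by
      rw [Function.iterate_succ_apply]
      have e : y + ((k + 1 : ℕ) : ℝ) = (y + k) + 1 := by push_cast; ring
      rw [e, sh_can (by have : (0 : ℝ) ≤ k := Nat.cast_nonneg k; linarith), sh_iter_can hy k]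

lemma unique_aux {x : ℝ} {F : LaurentSeries ℂ} (h : IsQReal x F) :
    ∀ k : ℕ, 1 ≤ x + k → F = sh^[k] (can (x + k)) := by
  induction h with
  | base x F c hx hc hlim hF =>
      intro k _
      rw [sh_iter_can hx k, eq_φ_L hc hF]
      have e : c = dig x := by
        funext j
        exact digits_unique j c (dig x) hc (fun j => two_le_dig hx j) x hlim (trunc_dig_tendsto hx)
      rw [e]
      rfl
  | shift x F _ ih =>
      intro k hk
      change sh F = _
      cases k with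
      | zero =>
          have h1 : 1 ≤ x - 1 := by simpa using hk
          have h2 := ih 0 (by simp; linarith)
          simp only [Function.iterate_zero, id_eq, Nat.cast_zero, add_zero] at h2 ⊢
          rw [h2]
          have h3 := sh_can h1
          rwa [sub_add_cancel] at h3
      | succ k =>
          have e : x - 1 + ((k + 1 : ℕ) : ℝ) = x + k := by push_cast; ring
          rw [e] at hk ⊢
          rw [Function.iterate_succ_apply', ← ih k hk]

lemma exists_aux : ∀ (k : ℕ) (x : ℝ), 1 ≤ x + k → ∃ F, IsQReal x F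
  | 0, x, h => by
      have hx : 1 ≤ x := by simpa using h
      exact ⟨can x, IsQReal.base x _ (dig x) hx (fun j => two_le_dig hx j) (trunc_dig_tendsto hx)
        fun m => φ_L_lim (fun j => two_le_dig hx j) m⟩
  | k + 1, x, h => by
      obtain ⟨F, hF⟩ := exists_aux k (x + 1) (by push_cast at h; linarith)
      have := IsQReal.shift (x + 1) F hF
      rw [add_sub_cancel_right] at this
      exact ⟨_, this⟩

lemma exists_nat_add (x : ℝ) : ∃ k : ℕ, 1 ≤ x + k := by
  obtain ⟨k, hk⟩ := exists_nat_gt (1 - x)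
  exact ⟨k, by linarith⟩

lemma coeff_sh (F : LaurentSeries ℂ) (n : ℕ) : (sh F).coeff (n : ℤ) = F.coeff ((n + 1 : ℕ) : ℤ) := by
  have e : q * sh F = F - 1 := by
    unfold sh
    rw [mul_inv_cancel_left₀ q_ne_zero]
  have h := congrArg (fun G : LaurentSeries ℂ => G.coeff ((n : ℤ) + 1)) e
  simp only [HahnSeries.coeff_sub] at h
  have h1 : (1 : LaurentSeries ℂ).coeff ((n : ℤ) + 1) = 0 := by
    rw [HahnSeries.coeff_one, if_neg (by omega)]
  have h2 : (q * sh F).coeff ((n : ℤ) + 1) = (sh F).coeff n := by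
    unfold q
    rw [HahnSeries.coeff_single_mul_add, one_mul]
  rw [h2, h1, sub_zero] at h
  rw [h]
  push_cast
  rfl

lemma bound_aux {ρ : ℝ} (hρ : 0 < ρ) (h : ρ + ρ ^ 2 ≤ 1) {x : ℝ} {F : LaurentSeries ℂ}
    (hF : IsQReal x F) : ∃ C : ℝ, ∀ n : ℕ, ‖F.coeff (n : ℤ)‖ * (ρ ^ 2) ^ n ≤ C := by
  induction hF with
  | base x F c hx hc hlim hF =>
      refine ⟨ρ + 1, fun n => ?_⟩
      rw [eq_φ_L hc hF, φ_coeff]
      have h1 : Nn (n + 1) (ρ ^ 2) (L c) ≤ ρ + 1 := by
        have e : L c = (L c - 1) + 1 := by ring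
        rw [e]
        exact (Nn_add (by positivity) _ _).trans (add_le_add (Nn_L hρ h hc) Nn_one)
      refine le_trans ?_ h1
      unfold Nn
      exact Finset.single_le_sum (f := fun k => ‖coeff k (L c)‖ * (ρ ^ 2) ^ k)
        (fun k _ => by positivity) (mem_range.2 (Nat.lt_succ_self n))
  | shift x F _ ih =>
      obtain ⟨C, hC⟩ := ih
      refine ⟨C / ρ ^ 2, fun n => ?_⟩
      change ‖(sh F).coeff (n : ℤ)‖ * (ρ ^ 2) ^ n ≤ _
      rw [coeff_sh, le_div_iff₀ (by positivity), mul_assoc, ← pow_succ]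
      exact hC (n + 1)

/-- for every real `x` there is exactly one `[x]_q`, and its radius of convergence is at least
`(3 - √5)/2` -/
theorem main (x : ℝ) : ∃ F : LaurentSeries ℂ, IsQReal x F ∧ (∀ G, IsQReal x G → G = F) ∧
    ENNReal.ofReal ((3 - √5) / 2) ≤ radius F := by
  obtain ⟨k, hk⟩ := exists_nat_add x
  obtain ⟨F, hF⟩ := exists_aux k x hk
  refine ⟨F, hF, fun G hG => ?_, ?_⟩
  · rw [unique_aux hG k hk, unique_aux hF k hk]
  · set ρ : ℝ := (√5 - 1) / 2 with hρdef
    have h5 : √5 * √5 = 5 := Real.mul_self_sqrt (by norm_num)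
    have h5' : 1 < √5 := by
      rw [Real.lt_sqrt (by norm_num)]
      norm_num
    have hρ : 0 < ρ := by rw [hρdef]; linarith
    have h1 : ρ ^ 2 = (3 - √5) / 2 := by rw [hρdef]; linear_combination h5 / 4
    have h2 : ρ + ρ ^ 2 ≤ 1 := by
      rw [h1, hρdef]
      linarith
    obtain ⟨C, hC⟩ := bound_aux hρ h2 hF
    have h3 : (0 : ℝ) ≤ (3 - √5) / 2 := by rw [← h1]; positivity
    rw [ENNReal.ofReal_eq_coe_nnreal h3]
    unfold radius
    refine FormalMultilinearSeries.le_radius_of_bound _ C fun n => ?_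
    rw [FormalMultilinearSeries.ofScalars_norm]
    have := hC n
    rw [h1] at this
    exact this

end Pool.Agent.K3h54.QR
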